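import Pool.Agent.H764.KS8

/-!
# The knots `f` for which `H₁(K(f); ℤ)` has torsion

Let `K(f)` be the component of the long knot `f` in the space of long knots in `ℝ³`. It is
aspherical, so `H₁(K(f); ℤ)` is the abelianisation of `π₁ K(f)`. We determine when it has torsion:

  `H₁(K(f); ℤ)` has torsion if and only if the JSJ tree of the complement of `f` has a vertex
  which is a hyperbolic link complement, with knots `f₁, …, fₙ` spliced into the strands
  `1, …, n` of the link, such that the (finite cyclic) group of those symmetries of the link
  (preserving the strand `0` of the knot and its orientation) which preserve the spliced knots
  `f_i` contains an element which maps a strand `i ≥ 1` to itself and reverses its orientation.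

In this case there is even an element of order `2`.

The class `LongKnotSpace` of groups (with the property of the tree) is defined in
`Pool.Agent.H764.KnotTypes`; it encodes Budney's description of `π₁ K(f)` by recursion over the
JSJ tree, together with the action of the inversion of knots.
-/

set_option autoImplicit false

namespace Pool.Agent.Results.MP_9ed307_gt.TorsionCriterion

open Pool.Agent.H764.KT

/-- `H₁(K(f); ℤ)`, the abelianisation of `G = π₁ K(f)`, has torsion if and only if some hyperbolic
vertex of the JSJ tree of `f` has a symmetry which reverses a strand; in this case it has an
element of order two. -/
theorem result {G : Type} [Group G] {R : Prop} (f : LongKnotSpace G R) :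
    ((∃ x : Abelianization G, x ≠ 1 ∧ IsOfFinOrder x) ↔ R) ∧
    (R → ∃ x : Abelianization G, orderOf x = 2) :=
  criterion f

end Pool.Agent.Results.MP_9ed307_gt.TorsionCriterion
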